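import Mathlib
import Pool.Agent.T2h34.Circ.Mat
import Pool.Agent.H283R2.DR.Glue
import Pool.Agent.H283R2.DR.TaskC

set_option autoImplicit false
set_option linter.unusedSectionVars false

/-! The closure of a graph in the generic rigidity matroid, and the removal of a vertex. -/

namespace Pool.Agent.T2h34.VT

open Finset Matrix Pool.Agent.H283R2.DR Pool.Agent.H789R5

variable {V : Type} [Fintype V] {d : ℕ}

/-- the pair `x`, `y` is linked: all motions preserve its distance -/
def Lk (p : V → Fin d → ℝ) (G : SimpleGraph V) (x y : V) : Prop :=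
  ∀ q, IsMotion G p q → (p x - p y) ⬝ᵥ (q x - q y) = 0

/-- the closure -/
def clo (p : V → Fin d → ℝ) (G : SimpleGraph V) : SimpleGraph V where
  Adj x y := x ≠ y ∧ Lk p G x y
  symm := ⟨fun x y h => ⟨h.1.symm, fun q hq => by
    have := h.2 q hq
    rw [← neg_sub (p x) (p y), ← neg_sub (q x) (q y), neg_dotProduct_neg]
    exact this⟩⟩
  loopless := ⟨fun _ h => h.1 rfl⟩

theorem le_clo (p : V → Fin d → ℝ) (G : SimpleGraph V) : G ≤ clo p G :=
  fun _ _ h => ⟨h.ne, fun _ hq => hq _ _ h⟩

theorem mot_clo (p : V → Fin d → ℝ) (G : SimpleGraph V) : Mot (clo p G) p = Mot G p := by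
  apply le_antisymm
  · exact mot_anti (le_clo p G) p
  · intro q hq
    rw [mem_mot] at *
    intro u v huv
    exact huv.2 q hq

theorem mo_clo (p : V → Fin d → ℝ) (G : SimpleGraph V) : mo (clo p G) p = mo G p := by
  unfold mo
  rw [mot_clo]

theorem motion_clo {p : V → Fin d → ℝ} {G : SimpleGraph V} {q : V → Fin d → ℝ} :
    IsMotion (clo p G) p q ↔ IsMotion G p q := by
  rw [← mem_mot, ← mem_mot, mot_clo]

/-- two cliques of the closure with `d` common vertices form a clique -/
theorem clo_glue {p : V → Fin d → ℝ} (hp : MG p) (G : SimpleGraph V) (A B : Finset V)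
    [DecidableEq V]
    (hA : (clo p G).IsClique (A : Set V)) (hB : (clo p G).IsClique (B : Set V))
    (hAB : d ≤ (A ∩ B).card) : (clo p G).IsClique ((A ∪ B : Finset V) : Set V) := by
  have h1 := rigid_complete hp.toGen (clo p G) A (fun u hu v hv huv => hA hu hv huv)
  have h2 := rigid_complete hp.toGen (clo p G) B (fun u hu v hv huv => hB hu hv huv)
  have h3 := glue hp.toGen h1 h2 hAB
  intro u hu v hv huv
  refine ⟨huv, fun q hq => ?_⟩
  obtain ⟨M, b, hM, hb⟩ := h3 q (fun x _ y _ hxy => motion_clo.2 hq x y hxy)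
  rw [hb u hu, hb v hv, add_sub_add_right_eq_sub, ← Matrix.mulVec_sub]
  exact skew_dot_self hM _

theorem mo_edge_lt {p : V → Fin d → ℝ} {G : SimpleGraph V} {x y : V}
    (h : ¬ Lk p G x y) : mo (G ⊔ SimpleGraph.edge x y) p + 1 ≤ mo G p := by
  unfold Lk at h
  push Not at h
  obtain ⟨q, hq, hne⟩ := h
  have hxy : x ≠ y := by
    rintro rfl
    simp at hne
  refine Submodule.finrank_lt_finrank_of_lt (lt_of_le_of_ne (mot_anti le_sup_left p) ?_)
  intro heq
  have h1 : q ∈ Mot (G ⊔ SimpleGraph.edge x y) p := by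
    rw [heq, mem_mot]
    exact hq
  rw [mem_mot] at h1
  exact hne (h1 x y (by
    rw [SimpleGraph.sup_adj, SimpleGraph.edge_adj]
    exact Or.inr ⟨Or.inl ⟨rfl, rfl⟩, hxy⟩))

theorem lk_iff {p : V → Fin d → ℝ} {G : SimpleGraph V} {x y : V} :
    Lk p G x y ↔ mo (G ⊔ SimpleGraph.edge x y) p = mo G p := by
  constructor
  · intro h
    apply le_antisymm (mo_anti le_sup_left p)
    refine Submodule.finrank_mono ?_
    intro q hq
    rw [mem_mot] at *
    intro u v huv
    rw [SimpleGraph.sup_adj, SimpleGraph.edge_adj] at huv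
    rcases huv with huv | ⟨⟨rfl, rfl⟩ | ⟨rfl, rfl⟩, _⟩
    · exact hq u v huv
    · exact h q hq
    · rw [← neg_sub (p v) (p u), ← neg_sub (q v) (q u), neg_dotProduct_neg]
      exact h q hq
  · intro h
    by_contra h'
    have := mo_edge_lt h'
    omega

/-- automorphisms preserve the closure -/
theorem clo_aut {p : V → Fin d → ℝ} (hp : MG p) {G : SimpleGraph V} (φ : G ≃g G) (x y : V) :
    (clo p G).Adj (φ x) (φ y) ↔ (clo p G).Adj x y := by
  have hiso : mo (G ⊔ SimpleGraph.edge x y) p = mo (G ⊔ SimpleGraph.edge (φ x) (φ y)) p := by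
    set ψ : (G ⊔ SimpleGraph.edge x y) ≃g (G ⊔ SimpleGraph.edge (φ x) (φ y)) :=
      { toEquiv := φ.toEquiv
        map_rel_iff' := by
          intro a b
          show (G ⊔ SimpleGraph.edge (φ x) (φ y)).Adj (φ a) (φ b) ↔ _
          rw [SimpleGraph.sup_adj, SimpleGraph.sup_adj, SimpleGraph.edge_adj, SimpleGraph.edge_adj,
            φ.map_rel_iff]
          simp only [ne_eq, EmbeddingLike.apply_eq_iff_eq] } with hψ
    exact Pool.Agent.T2h34.Circ.mo_mg_iso ψ hp hp
  show (φ x ≠ φ y ∧ Lk p G (φ x) (φ y)) ↔ (x ≠ y ∧ Lk p G x y)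
  rw [lk_iff, lk_iff, hiso]
  simp

/-! ### Induced subgraphs -/

/-- the graph of the edges of `C` inside `S` -/
def ind (C : SimpleGraph V) (S : Finset V) : SimpleGraph V where
  Adj u v := C.Adj u v ∧ u ∈ S ∧ v ∈ S
  symm := ⟨fun _ _ h => ⟨h.1.symm, h.2.2, h.2.1⟩⟩
  loopless := ⟨fun v h => C.loopless.irrefl v h.1⟩

theorem ind_univ (C : SimpleGraph V) : ind C univ = C := by
  ext u v
  simp [ind]

theorem ind_del [DecidableEq V] (C : SimpleGraph V) (S : Finset V) (v : V) :
    (ind C S).deleteIncidenceSet v = ind C (S.erase v) := by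
  ext a b
  rw [SimpleGraph.deleteIncidenceSet_adj]
  simp only [ind, mem_erase]
  tauto

open Classical in
/-- the neighbours of `v` in `S` -/
noncomputable def nb (C : SimpleGraph V) (S : Finset V) (v : V) : Finset V :=
  S.filter fun u => C.Adj v u

theorem mem_nb {C : SimpleGraph V} {S : Finset V} {v u : V} : u ∈ nb C S v ↔ u ∈ S ∧ C.Adj v u := by
  classical
  unfold nb
  simp

theorem step0 {p : V → Fin d → ℝ} (hp : MG p) [DecidableEq V] (C : SimpleGraph V) {S : Finset V}
    {v : V} (hv : v ∈ S) : mo (ind C S) p + min (nb C S v).card d ≤ mo (ind C (S.erase v)) p := by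
  obtain ⟨T, hT, hTc⟩ := exists_subset_card_eq (s := nb C S v) (n := min (nb C S v).card d)
    (min_le_left _ _)
  have := ext0 hp (ind C S) v T (by rw [hTc]; exact min_le_right _ _) (by
    intro z hz
    have := mem_nb.1 (hT hz)
    exact ⟨this.2, hv, this.1⟩)
  rw [ind_del, hTc] at this
  exact this

theorem step1 {p : V → Fin d → ℝ} (hp : MG p) [DecidableEq V] (G : SimpleGraph V) {S : Finset V}
    {v : V} (hv : v ∈ S) (hc : d + 1 ≤ (nb (clo p G) S v).card)
    (hnc : ¬ (clo p G).IsClique (nb (clo p G) S v : Set V)) :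
    mo (ind (clo p G) S) p + (d + 1) ≤ mo (ind (clo p G) (S.erase v)) p := by
  set C := clo p G with hC
  rw [SimpleGraph.isClique_iff, Set.Pairwise] at hnc
  push Not at hnc
  obtain ⟨x, hx, y, hy, hxy, hxyC⟩ := hnc
  rw [mem_coe] at hx hy
  have h2 : 2 ≤ d + 1 := by
    by_contra h
    have hd : d = 0 := by omega
    subst hd
    apply hxyC
    rw [hC]
    exact ⟨hxy, fun q _ => by simp⟩
  obtain ⟨N, hxN, hNs, hNc⟩ := exists_subsuperset_card_eq (s := {x, y}) (t := nb C S v) (n := d + 1)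
    (by intro z hz; rw [mem_insert, mem_singleton] at hz; rcases hz with rfl | rfl <;> assumption)
    (by rw [card_pair hxy]; exact h2) hc
  have h1 := ext1 hp (ind C S) v N hNc (by
    intro z hz
    have := mem_nb.1 (hNs hz)
    exact ⟨this.2, hv, this.1⟩) (hxN (by simp)) (hxN (by simp)) hxy
  rw [ind_del] at h1
  have h3 : ¬ Lk p (ind C (S.erase v)) x y := by
    intro hl
    apply hxyC
    rw [hC]
    refine ⟨hxy, fun q hq => hl q ?_⟩
    intro a b hab
    exact motion_clo.2 hq a b hab.1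
  have := mo_edge_lt h3
  omega

end Pool.Agent.T2h34.VT
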