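import Mathlib
import Pool.Agent.T2h34.VT.Clo

set_option autoImplicit false
set_option linter.unusedSectionVars false

/-! A lower bound for the rank of a closed graph, from a random order of the vertices. -/

namespace Pool.Agent.T2h34.VT

open Finset Matrix Pool.Agent.H283R2.DR Pool.Agent.H789R5

/-- the values of the bound: cliques -/
noncomputable def h0 (d : ℕ) (j : ℝ) : ℝ := d - d * (d + 1) / 2 / (j + 1)

/-- cliques and one further vertex -/
noncomputable def h1 (d : ℕ) (j : ℝ) : ℝ := d + 1 / 2 - d * (d + 1) / 2 / j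

/-- all others -/
noncomputable def h2 (d : ℕ) (j : ℝ) : ℝ :=
  d + 1 - ((d + 1) * (d + 2) / 2 + (j - d) * (j - d - 1) * (j - d - 2) / (3 * j * (j - 1))) / (j + 1)

theorem h01_le {d : ℕ} {j : ℝ} (hj : (d : ℝ) + 1 ≤ j) (hj2 : 2 ≤ j) : h0 d (j - 1) ≤ h1 d (j - 1) := by
  unfold h0 h1
  have hd : (0 : ℝ) ≤ d := Nat.cast_nonneg d
  have e1 : j - 1 + 1 = j := by ring
  rw [e1]
  have h : d * (d + 1) / 2 / (j - 1) - (d : ℝ) * (d + 1) / 2 / j ≤ 1 / 2 := by
    have hj1 : 0 < j - 1 := by linarith
    have hj0 : 0 < j := by linarith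
    rw [div_sub_div _ _ hj1.ne' hj0.ne', div_le_div_iff₀ (by positivity) (by norm_num)]
    nlinarith
  linarith

theorem h12_le {d : ℕ} {j : ℝ} (hj : (d : ℝ) + 1 ≤ j) (hj2 : 2 ≤ j) : h1 d j ≤ h2 d j := by
  unfold h1 h2
  have hd : (0 : ℝ) ≤ d := Nat.cast_nonneg d
  have hj1 : 0 < j - 1 := by linarith
  have hj0 : 0 < j := by linarith
  have hj3 : 0 < j + 1 := by linarith
  have key : ((d + 1) * (d + 2) / 2 + (j - d) * (j - d - 1) * (j - d - 2) / (3 * j * (j - 1))) / (j + 1)
      ≤ 1 / 2 + (d : ℝ) * (d + 1) / 2 / j := by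
    have e : 1 / 2 + (d : ℝ) * (d + 1) / 2 / j -
        ((d + 1) * (d + 2) / 2 + (j - d) * (j - d - 1) * (j - d - 2) / (3 * j * (j - 1))) / (j + 1) =
        ((j - d) * (j - d - 1) * (j + 2 * d + 1)) / (6 * j * (j - 1) * (j + 1)) := by
      field_simp
      ring
    have h0 : 0 ≤ ((j - d) * (j - d - 1) * (j + 2 * d + 1)) / (6 * j * (j - 1) * (j + 1)) := by
      apply div_nonneg
      · apply mul_nonneg
        · apply mul_nonneg <;> linarith
        · linarith
      · positivity
    linarith
  linarith

theorem rec1 {d : ℕ} {j : ℝ} (hj2 : 2 ≤ j) :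
    (j + 1) * h1 d j = (d + 1) + j * h1 d (j - 1) - (h1 d (j - 1) - h0 d (j - 1)) := by
  unfold h0 h1
  have hj1 : j - 1 ≠ 0 := by linarith
  have hj0 : j ≠ 0 := by linarith
  have hj3 : j - 1 + 1 ≠ 0 := by linarith
  field_simp
  ring

theorem rec2 {d : ℕ} {j : ℝ} (hj2 : 3 ≤ j) :
    (j + 1) * h2 d j = (d + 1) + j * h2 d (j - 1) - 2 * (h2 d (j - 1) - h1 d (j - 1)) := by
  unfold h1 h2
  have hj1 : j - 1 ≠ 0 := by linarith
  have hj0 : j ≠ 0 := by linarith
  have hj3 : j - 1 + 1 ≠ 0 := by linarith
  have hj4 : j + 1 ≠ 0 := by linarith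
  have hj5 : j - 1 - 1 ≠ 0 := by linarith
  field_simp
  ring


variable {V : Type} [Fintype V] [DecidableEq V] {d : ℕ}

/-- `A` without one of its elements is a clique -/
def S1 (C : SimpleGraph V) (A : Finset V) : Prop := ∃ v ∈ A, C.IsClique (A.erase v : Set V)

open Classical in
/-- the bound for a vertex with the set `A` of neighbours -/
noncomputable def hh (d : ℕ) (C : SimpleGraph V) (A : Finset V) : ℝ :=
  if A.card ≤ d then (A.card : ℝ) / 2
  else if C.IsClique (A : Set V) then h0 d A.card
  else if S1 C A then h1 d A.card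
  else h2 d A.card

open Classical in
/-- the least decrease of the rank -/
noncomputable def gg (d : ℕ) (C : SimpleGraph V) (A : Finset V) : ℕ :=
  if A.card ≤ d then A.card else if C.IsClique (A : Set V) then d else d + 1

theorem hh_small {C : SimpleGraph V} {A : Finset V} (h : A.card ≤ d) :
    hh d C A = (A.card : ℝ) / 2 := by
  unfold hh; rw [if_pos h]

theorem hh_clique {C : SimpleGraph V} {A : Finset V} (h : d ≤ A.card)
    (hc : C.IsClique (A : Set V)) : hh d C A = h0 d A.card := by
  unfold hh
  rcases Nat.lt_or_ge d A.card with h1 | h1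
  · rw [if_neg (by omega), if_pos hc]
  · rw [if_pos h1]
    have : A.card = d := by omega
    rw [this]
    unfold h0
    have : (d : ℝ) + 1 ≠ 0 := by positivity
    field_simp
    ring

theorem hh_not {C : SimpleGraph V} {A : Finset V} (h : d ≤ A.card) (h2' : 2 ≤ A.card)
    (hc : ¬ C.IsClique (A : Set V)) : h1 d A.card ≤ hh d C A := by
  unfold hh
  rcases Nat.lt_or_ge d A.card with h1' | h1'
  · rw [if_neg (by omega), if_neg hc]
    split_ifs with h3
    · exact le_rfl
    · apply h12_le
      · exact_mod_cast h1'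
      · exact_mod_cast h2'
  · rw [if_pos h1']
    have e : A.card = d := by omega
    have h2'' : 2 ≤ d := by omega
    rw [e]
    unfold h1
    have : (d : ℝ) ≠ 0 := by positivity
    apply le_of_eq
    field_simp
    ring

theorem hh_not2 {C : SimpleGraph V} {A : Finset V} (h : d + 1 ≤ A.card)
    (hc : ¬ C.IsClique (A : Set V)) (hs : ¬ S1 C A) : hh d C A = h2 d A.card := by
  unfold hh
  rw [if_neg (by omega), if_neg hc, if_neg hs]

theorem count1 {p : V → Fin d → ℝ} (hp : MG p) (G : SimpleGraph V) {u : V} {A : Finset V}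
    (hA : ∀ a ∈ A, (clo p G).Adj u a) (hc : d + 1 ≤ A.card)
    (hn : ¬ (clo p G).IsClique (A : Set V)) {v v' : V} (hv : v ∈ A) (hv' : v' ∈ A)
    (h : (clo p G).IsClique (A.erase v : Set V)) (h' : (clo p G).IsClique (A.erase v' : Set V)) :
    v = v' := by
  by_contra hne
  apply hn
  set C := clo p G with hC
  have huA : u ∉ A := fun h => (hA u h).ne rfl
  have hins : ∀ B : Finset V, B ⊆ A → C.IsClique (B : Set V) → C.IsClique (insert u B : Finset V) := by
    intro B hB hBc
    rw [coe_insert, SimpleGraph.isClique_insert]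
    exact ⟨hBc, fun b hb _ => hA b (hB hb)⟩
  have h1 := clo_glue hp G (insert u (A.erase v)) (insert u (A.erase v'))
    (hins _ (erase_subset _ _) (by simpa using h)) (hins _ (erase_subset _ _) (by simpa using h')) (by
      have h2 : insert u ((A.erase v).erase v') ⊆
          insert u (A.erase v) ∩ insert u (A.erase v') := by
        intro x hx
        rw [mem_insert, mem_erase, mem_erase] at hx
        rw [mem_inter, mem_insert, mem_insert, mem_erase, mem_erase]
        tauto
      have h3 := card_le_card h2
      rw [card_insert_of_notMem (fun h => huA (mem_of_mem_erase (mem_of_mem_erase h))),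
        card_erase_of_mem (mem_erase.2 ⟨fun h => hne h.symm, hv'⟩), card_erase_of_mem hv] at h3
      omega)
  refine h1.subset ?_
  intro x hx
  rw [mem_coe] at hx
  rw [mem_coe, mem_union, mem_insert, mem_insert, mem_erase, mem_erase]
  by_cases hxv : x = v
  · right; right
    exact ⟨fun h => hne (hxv.symm.trans h), hx⟩
  · left; right
    exact ⟨hxv, hx⟩

theorem count2 {p : V → Fin d → ℝ} (hp : MG p) (G : SimpleGraph V) {u : V} {A : Finset V}
    (hA : ∀ a ∈ A, (clo p G).Adj u a) (hc : d + 3 ≤ A.card)
    (hn : ¬ S1 (clo p G) A) :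
    ∃ v w : V, ∀ x ∈ A, S1 (clo p G) (A.erase x) → x = v ∨ x = w := by
  set C := clo p G with hC
  have huA : u ∉ A := fun h => (hA u h).ne rfl
  have hins : ∀ B : Finset V, B ⊆ A → C.IsClique (B : Set V) → C.IsClique (insert u B : Finset V) := by
    intro B hB hBc
    rw [coe_insert, SimpleGraph.isClique_insert]
    exact ⟨hBc, fun b hb _ => hA b (hB hb)⟩
  by_cases hex : ∃ v ∈ A, S1 C (A.erase v)
  swap
  · have : A.Nonempty := card_pos.1 (by omega)
    obtain ⟨a, _⟩ := this
    push Not at hex
    exact ⟨a, a, fun x hx h => absurd h (hex x hx)⟩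
  obtain ⟨v, hv, w, hw, hvw⟩ := hex
  rw [mem_erase] at hw
  refine ⟨v, w, ?_⟩
  intro x hx hSx
  obtain ⟨y, hy, hxy⟩ := hSx
  rw [mem_erase] at hy
  by_contra hcon
  push Not at hcon
  -- the union of the two cliques
  have h1 := clo_glue hp G (insert u ((A.erase v).erase w)) (insert u ((A.erase x).erase y))
    (hins _ ((erase_subset _ _).trans (erase_subset _ _)) (by simpa using hvw))
    (hins _ ((erase_subset _ _).trans (erase_subset _ _)) (by simpa using hxy)) (by
      have h2 : insert u ((((A.erase v).erase w).erase x).erase y) ⊆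
          insert u ((A.erase v).erase w) ∩ insert u ((A.erase x).erase y) := by
        intro z hz
        simp only [mem_insert, mem_erase] at hz
        simp only [mem_inter, mem_insert, mem_erase]
        tauto
      have h3 := card_le_card h2
      have h4 : u ∉ ((((A.erase v).erase w).erase x).erase y) := by
        intro h
        simp only [mem_erase] at h
        exact huA h.2.2.2.2
      rw [card_insert_of_notMem h4] at h3
      have h5 := pred_card_le_card_erase (s := ((A.erase v).erase w).erase x) (a := y)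
      have h6 := pred_card_le_card_erase (s := (A.erase v).erase w) (a := x)
      have h7 := pred_card_le_card_erase (s := A.erase v) (a := w)
      have h8 := pred_card_le_card_erase (s := A) (a := v)
      omega)
  apply hn
  -- `y` or a vertex of the first pair is the only missing one
  by_cases hyv : y = v
  · refine ⟨v, hv, h1.subset ?_⟩
    intro z hz
    rw [mem_coe, mem_erase] at hz
    simp only [coe_union, coe_insert, coe_erase, Set.mem_union, Set.mem_insert_iff, Set.mem_sdiff,
      Set.mem_singleton_iff, mem_coe]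
    by_cases hzx : z = x
    · left; right
      exact ⟨⟨hz.2, hz.1⟩, fun h => hcon.2 (hzx.symm.trans h)⟩
    · right; right
      exact ⟨⟨hz.2, hzx⟩, fun h => hz.1 (h.trans hyv)⟩
  · by_cases hyw : y = w
    · refine ⟨w, hw.2, h1.subset ?_⟩
      intro z hz
      rw [mem_coe, mem_erase] at hz
      simp only [coe_union, coe_insert, coe_erase, Set.mem_union, Set.mem_insert_iff, Set.mem_sdiff,
        Set.mem_singleton_iff, mem_coe]
      by_cases hzx : z = x
      · left; right
        exact ⟨⟨hz.2, fun h => hcon.1 (hzx.symm.trans h)⟩, hz.1⟩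
      · right; right
        exact ⟨⟨hz.2, hzx⟩, fun h => hz.1 (h.trans hyw)⟩
    · refine ⟨v, hv, h1.subset ?_⟩
      intro z hz
      rw [mem_coe, mem_erase] at hz
      simp only [coe_union, coe_insert, coe_erase, Set.mem_union, Set.mem_insert_iff, Set.mem_sdiff,
        Set.mem_singleton_iff, mem_coe]
      by_cases hzx : z = x
      · left; right
        exact ⟨⟨hz.2, fun h => hcon.1 (hzx.symm.trans h)⟩, fun h => hcon.2 (hzx.symm.trans h)⟩
      · by_cases hzy : z = y
        · left; right
          exact ⟨⟨hz.2, hz.1⟩, fun h => hyw (hzy.symm.trans h)⟩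
        · right; right
          exact ⟨⟨hz.2, hzx⟩, hzy⟩

/-- **The recursive inequality.** -/
theorem hh_rec {p : V → Fin d → ℝ} (hp : MG p) (G : SimpleGraph V) {u : V} {A : Finset V}
    (hA : ∀ a ∈ A, (clo p G).Adj u a) :
    ((A.card : ℝ) + 1) * hh d (clo p G) A ≤ gg d (clo p G) A +
      ∑ v ∈ A, hh d (clo p G) (A.erase v) := by
  classical
  set C := clo p G with hC
  have hcard : ∀ v ∈ A, (A.erase v).card = A.card - 1 := fun v hv => card_erase_of_mem hv
  rcases Nat.lt_or_ge d A.card with hj | hj
  swap
  · -- at most `d` neighbours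
    have e1 : ∀ v ∈ A, hh d C (A.erase v) = ((A.card : ℝ) - 1) / 2 := by
      intro v hv
      have hpos : 1 ≤ A.card := card_pos.2 ⟨v, hv⟩
      rw [hh_small (by rw [hcard v hv]; omega), hcard v hv, Nat.cast_sub hpos, Nat.cast_one]
    rw [sum_congr rfl e1, sum_const, nsmul_eq_mul, hh_small hj]
    unfold gg
    rw [if_pos hj]
    apply le_of_eq
    ring
  have hpos : 1 ≤ A.card := by omega
  have hcr : ∀ v ∈ A, ((A.erase v).card : ℝ) = (A.card : ℝ) - 1 := by
    intro v hv
    rw [hcard v hv, Nat.cast_sub hpos, Nat.cast_one]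
  have hjR : (d : ℝ) + 1 ≤ A.card := by exact_mod_cast hj
  by_cases hcl : C.IsClique (A : Set V)
  · have e1 : ∀ v ∈ A, hh d C (A.erase v) = h0 d ((A.card : ℝ) - 1) := by
      intro v hv
      rw [hh_clique (by rw [hcard v hv]; omega) (hcl.subset (by
        rw [coe_erase]; exact Set.sdiff_subset)), hcr v hv]
    rw [sum_congr rfl e1, sum_const, nsmul_eq_mul, hh_clique hj.le hcl]
    unfold gg
    rw [if_neg (by omega), if_pos hcl]
    unfold h0
    have h3 : (A.card : ℝ) ≠ 0 := by positivity
    have h4 : (A.card : ℝ) + 1 ≠ 0 := by positivity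
    apply le_of_eq
    have e2 : (A.card : ℝ) - 1 + 1 = A.card := by ring
    rw [e2]
    field_simp
    ring
  have hg : (gg d C A : ℝ) = d + 1 := by
    unfold gg
    rw [if_neg (by omega), if_neg hcl]
    push_cast
    ring
  have hA2 : 2 ≤ A.card := by
    by_contra h
    have : A.card = 1 := by omega
    obtain ⟨a, rfl⟩ := card_eq_one.1 this
    exact hcl (by simp)
  have hA2R : (2 : ℝ) ≤ A.card := by exact_mod_cast hA2
  rw [hg]
  rcases Nat.lt_or_ge (d + 1) A.card with hj2 | hj2
  swap
  · -- exactly `d + 1` neighbours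
    have hj1 : A.card = d + 1 := by omega
    have e1 : ∀ v ∈ A, hh d C (A.erase v) = (d : ℝ) / 2 := by
      intro v hv
      rw [hh_small (by rw [hcard v hv]; omega), hcard v hv, hj1, Nat.add_sub_cancel]
    rw [sum_congr rfl e1, sum_const, nsmul_eq_mul]
    have e2 : hh d C A = ((d : ℝ) + 1) / 2 := by
      unfold hh
      rw [if_neg (by omega), if_neg hcl]
      have h5 : (d : ℝ) + 1 ≠ 0 := by positivity
      have h6 : (d : ℝ) ≠ 0 := by
        have : 1 ≤ d := by omega
        positivity
      have h7 : (d : ℝ) + 1 + 1 ≠ 0 := by positivity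
      split_ifs
      · rw [hj1]
        unfold h1
        push_cast
        field_simp
        ring
      · rw [hj1]
        unfold h2
        push_cast
        have e3 : (d : ℝ) + 1 - d - 1 = 0 := by ring
        rw [e3, mul_zero, zero_mul, zero_div, add_zero]
        field_simp
        ring
    rw [e2, hj1]
    push_cast
    apply le_of_eq
    ring
  have hj3 : 3 ≤ A.card ∨ A.card = 2 := by omega
  by_cases hs : S1 C A
  · -- one further vertex
    obtain ⟨v0, hv0, hcl0⟩ := hs
    have e1 : ∀ v ∈ A, v ≠ v0 → h1 d ((A.card : ℝ) - 1) ≤ hh d C (A.erase v) := by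
      intro v hv hne
      have hnc : ¬ C.IsClique (A.erase v : Set V) := fun h =>
        hne (count1 hp G hA (by omega) hcl hv hv0 h hcl0)
      have hc2 : 2 ≤ (A.erase v).card := by
        by_contra h
        apply hnc
        have h8 : (A.erase v).card ≤ 1 := by omega
        intro a ha b hb hab
        exact absurd (card_le_one.1 h8 a (by simpa [and_comm] using ha) b (by simpa [and_comm] using hb)) hab
      have := hh_not (d := d) (C := C) (A := A.erase v) (by rw [hcard v hv]; omega) hc2
        (by simpa using hnc)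
      rwa [hcr v hv] at this
    have e2 : hh d C (A.erase v0) = h0 d ((A.card : ℝ) - 1) := by
      rw [hh_clique (by rw [hcard v0 hv0]; omega) (by simpa using hcl0), hcr v0 hv0]
    have e3 : hh d C A = h1 d A.card := by
      unfold hh
      rw [if_neg (by omega), if_neg hcl, if_pos ⟨v0, hv0, hcl0⟩]
    rw [e3, rec1 hA2R, ← add_sum_erase A _ hv0, e2]
    have h5 : ((A.card : ℝ) - 1) * h1 d ((A.card : ℝ) - 1) ≤
        ∑ v ∈ A.erase v0, hh d C (A.erase v) := by
      have := card_nsmul_le_sum (A.erase v0) (fun v => hh d C (A.erase v))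
        (h1 d ((A.card : ℝ) - 1)) (fun v hv => e1 v (mem_of_mem_erase hv) (ne_of_mem_erase hv))
      rw [nsmul_eq_mul, hcr v0 hv0] at this
      exact this
    nlinarith
  · -- the remaining case
    have hnc : ∀ v ∈ A, ¬ C.IsClique (A.erase v : Set V) := fun v hv h => hs ⟨v, hv, h⟩
    have hA3 : 3 ≤ A.card := by
      rcases hj3 with h | h
      · exact h
      · exfalso
        obtain ⟨a, b, hab, rfl⟩ := card_eq_two.1 h
        refine hs ⟨a, by simp, ?_⟩
        intro x hx y hy hxy
        simp at hx hy
        exact absurd (hx.1.symm ▸ hy.1.symm ▸ rfl) hxy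
    have hA3R : (3 : ℝ) ≤ A.card := by exact_mod_cast hA3
    have hD : h1 d ((A.card : ℝ) - 1) ≤ h2 d ((A.card : ℝ) - 1) := by
      apply h12_le
      · have : ((d + 1 : ℕ) : ℝ) + 1 ≤ A.card := by exact_mod_cast hj2
        push_cast at this
        linarith
      · linarith
    have e1 : ∀ v ∈ A, h1 d ((A.card : ℝ) - 1) ≤ hh d C (A.erase v) := by
      intro v hv
      have := hh_not (d := d) (C := C) (A := A.erase v) (by rw [hcard v hv]; omega)
        (by rw [hcard v hv]; omega) (by simpa using hnc v hv)
      rwa [hcr v hv] at this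
    have e2 : ∀ v ∈ A, ¬ S1 C (A.erase v) → hh d C (A.erase v) = h2 d ((A.card : ℝ) - 1) := by
      intro v hv hvs
      rw [hh_not2 (by rw [hcard v hv]; omega) (by simpa using hnc v hv) hvs, hcr v hv]
    rw [hh_not2 (by omega) hcl hs, rec2 hA3R]
    -- the sum
    set a := h1 d ((A.card : ℝ) - 1) with ha
    set b := h2 d ((A.card : ℝ) - 1) with hb
    rcases Nat.lt_or_ge (d + 2) A.card with hj4 | hj4
    · obtain ⟨v, w, hvw⟩ := count2 hp G hA (by omega) hs
      have h5 : ∑ x ∈ A, (b - (if x = v then (b - a) else 0) - (if x = w then (b - a) else 0)) ≤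
          ∑ x ∈ A, hh d C (A.erase x) := by
        refine sum_le_sum fun x hx => ?_
        by_cases hx1 : S1 C (A.erase x)
        · have h6 := e1 x hx
          rcases hvw x hx hx1 with h | h
          · rw [if_pos h]
            split_ifs <;> linarith
          · rw [if_pos h]
            split_ifs <;> linarith
        · rw [e2 x hx hx1]
          split_ifs <;> linarith
      rw [sum_sub_distrib, sum_sub_distrib, sum_const, nsmul_eq_mul] at h5
      have h7 : ∀ y, ∑ x ∈ A, (if x = y then (b - a) else 0) ≤ b - a := by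
        intro y
        rw [sum_ite_eq']
        split_ifs <;> linarith
      have h8 := h7 v
      have h9 := h7 w
      linarith
    · -- `d + 2` neighbours
      have hj5 : A.card = d + 2 := by omega
      have hab : a = b := by
        rw [ha, hb, hj5]
        unfold h1 h2
        push_cast
        have e4 : (d : ℝ) + 2 - 1 - d - 1 = 0 := by ring
        rw [e4, mul_zero, zero_mul, zero_div, add_zero]
        have h10 : (d : ℝ) + 2 - 1 ≠ 0 := by
          have : (0 : ℝ) ≤ d := Nat.cast_nonneg d
          linarith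
        have h11 : (d : ℝ) + 2 - 1 + 1 ≠ 0 := by
          have : (0 : ℝ) ≤ d := Nat.cast_nonneg d
          linarith
        field_simp
        ring
      have h5 : (A.card : ℝ) * a ≤ ∑ x ∈ A, hh d C (A.erase x) := by
        have := card_nsmul_le_sum A (fun v => hh d C (A.erase v)) a e1
        rwa [nsmul_eq_mul] at this
      rw [← hab]
      linarith


theorem nb_erase {C : SimpleGraph V} {S : Finset V} {u v : V} :
    nb C (S.erase v) u = (nb C S u).erase v := by
  ext x
  rw [mem_nb, mem_erase, mem_erase, mem_nb]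
  tauto

/-- **The bound for the rank.** -/
theorem main_ineq {p : V → Fin d → ℝ} (hp : MG p) (G : SimpleGraph V) : ∀ (n : ℕ) (S : Finset V),
    S.card = n → ∑ v ∈ S, hh d (clo p G) (nb (clo p G) S v) + mo (ind (clo p G) S) p ≤
      d * Fintype.card V := by
  classical
  set C := clo p G with hC
  intro n
  induction n with
  | zero =>
    intro S hS
    rw [card_eq_zero.1 hS, sum_empty, zero_add]
    exact_mod_cast mo_le _ p
  | succ n ih =>
    intro S hS
    have hstep : ∀ v ∈ S, (mo (ind C S) p : ℝ) + gg d C (nb C S v) ≤ mo (ind C (S.erase v)) p := by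
      intro v hv
      unfold gg
      split_ifs with h1 h2
      · have := step0 hp C hv
        rw [min_eq_left h1] at this
        exact_mod_cast this
      · have := step0 hp C hv
        rw [min_eq_right (by omega)] at this
        exact_mod_cast this
      · have := step1 hp G hv (by rw [← hC]; omega) h2
        exact_mod_cast this
    have hih : ∀ v ∈ S, ∑ u ∈ S.erase v, hh d C ((nb C S u).erase v) +
        (mo (ind C (S.erase v)) p : ℝ) ≤ d * Fintype.card V := by
      intro v hv
      have := ih (S.erase v) (by rw [card_erase_of_mem hv, hS]; rfl)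
      simp only [nb_erase] at this
      exact this
    -- summation
    have h1 : ∑ v ∈ S, (∑ u ∈ S.erase v, hh d C ((nb C S u).erase v) +
        ((mo (ind C S) p : ℝ) + gg d C (nb C S v))) ≤ ∑ v ∈ S, ((d : ℝ) * Fintype.card V) := by
      refine sum_le_sum fun v hv => ?_
      have := hstep v hv
      have := hih v hv
      linarith
    rw [sum_const, nsmul_eq_mul, sum_add_distrib, sum_add_distrib, sum_const, nsmul_eq_mul] at h1
    have h2 : ∑ v ∈ S, ∑ u ∈ S.erase v, hh d C ((nb C S u).erase v) =
        ∑ u ∈ S, ∑ v ∈ S.erase u, hh d C ((nb C S u).erase v) := by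
      have e : ∀ f : V → V → ℝ, ∑ v ∈ S, ∑ u ∈ S.erase v, f u v =
          ∑ v ∈ S, ∑ u ∈ S, if u ≠ v then f u v else 0 := by
        intro f
        refine sum_congr rfl fun v _ => ?_
        rw [← sum_filter]
        refine sum_congr ?_ fun _ _ => rfl
        ext x
        rw [mem_erase, mem_filter]
        tauto
      rw [e (fun u v => hh d C ((nb C S u).erase v)), sum_comm]
      rw [e (fun v u => hh d C ((nb C S u).erase v))]
      refine sum_congr rfl fun v _ => sum_congr rfl fun u _ => ?_
      by_cases h : u = v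
      · rw [if_neg (fun h' => h' h.symm), if_neg (fun h' => h' h)]
      · rw [if_pos (fun h' => h h'.symm), if_pos h]
    have h3 : ∀ u ∈ S, (S.card : ℝ) * hh d C (nb C S u) ≤
        ∑ v ∈ S.erase u, hh d C ((nb C S u).erase v) + gg d C (nb C S u) := by
      intro u hu
      have hrec := hh_rec hp G (u := u) (A := nb C S u) (fun a ha => (mem_nb.1 ha).2)
      rw [← hC] at hrec
      have hsub : nb C S u ⊆ S.erase u := by
        intro x hx
        rw [mem_nb] at hx
        rw [mem_erase]
        exact ⟨fun h => hx.2.ne h.symm, hx.1⟩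
      rw [← sum_sdiff hsub]
      have h4 : ∑ v ∈ S.erase u \ nb C S u, hh d C ((nb C S u).erase v) =
          ((S.card : ℝ) - 1 - (nb C S u).card) * hh d C (nb C S u) := by
        rw [sum_congr rfl (g := fun _ => hh d C (nb C S u)) (fun v hv => by
          rw [erase_eq_of_notMem (mem_sdiff.1 hv).2]), sum_const, nsmul_eq_mul,
          card_sdiff_of_subset hsub, card_erase_of_mem hu]
        have h5 := card_le_card hsub
        rw [card_erase_of_mem hu] at h5
        rw [Nat.cast_sub h5, Nat.cast_sub (card_pos.2 ⟨u, hu⟩), Nat.cast_one]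
      rw [h4]
      nlinarith
    have h6 := sum_le_sum h3
    rw [← mul_sum, sum_add_distrib] at h6
    rw [h2] at h1
    have hSpos : (0 : ℝ) < S.card := by rw [hS]; positivity
    have h7 : (S.card : ℝ) * (∑ v ∈ S, hh d C (nb C S v) + mo (ind C S) p) ≤
        S.card * (d * Fintype.card V) := by
      rw [mul_add]
      linarith
    exact le_of_mul_le_mul_left h7 hSpos

/-- the bound for the whole graph -/
theorem main_bound {p : V → Fin d → ℝ} (hp : MG p) (G : SimpleGraph V) :
    ∑ v, hh d (clo p G) (nb (clo p G) univ v) + mo G p ≤ d * Fintype.card V := by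
  have := main_ineq hp G _ univ rfl
  rw [ind_univ, mo_clo] at this
  exact this

end Pool.Agent.T2h34.VT
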