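import Mathlib
import Pool.Agent.T2h34.VT.Ineq
import Pool.Agent.T2h34.Circ.Final

set_option autoImplicit false
set_option linter.unusedSectionVars false

/-! Vertex-transitive graphs. -/

namespace Pool.Agent.T2h34.VT

open Finset Matrix Pool.Agent.H283R2.DR Pool.Agent.H789R5

variable {V : Type} [Fintype V] [DecidableEq V] {d : ℕ}

/-! ### Invariance -/

theorem nb_aut {p : V → Fin d → ℝ} (hp : MG p) {G : SimpleGraph V} (φ : G ≃g G) (v : V) :
    nb (clo p G) univ (φ v) = (nb (clo p G) univ v).map φ.toEquiv.toEmbedding := by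
  ext x
  rw [mem_nb, mem_map]
  constructor
  · rintro ⟨-, h⟩
    refine ⟨φ.symm x, ?_, ?_⟩
    · rw [mem_nb]
      refine ⟨mem_univ _, (clo_aut hp φ v (φ.symm x)).1 ?_⟩
      rwa [RelIso.apply_symm_apply]
    · exact φ.apply_symm_apply x
  · rintro ⟨y, hy, rfl⟩
    exact ⟨mem_univ _, (clo_aut hp φ v y).2 (mem_nb.1 hy).2⟩

theorem clique_aut {p : V → Fin d → ℝ} (hp : MG p) {G : SimpleGraph V} (φ : G ≃g G)
    (A : Finset V) : (clo p G).IsClique ((A.map φ.toEquiv.toEmbedding : Finset V) : Set V) ↔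
      (clo p G).IsClique (A : Set V) := by
  constructor
  · intro h x hx y hy hxy
    exact (clo_aut hp φ x y).1 (h (mem_coe.2 (mem_map_of_mem _ hx)) (mem_coe.2 (mem_map_of_mem _ hy))
      (fun h' => hxy (φ.injective h')))
  · intro h x hx y hy hxy
    rw [mem_coe, mem_map] at hx hy
    obtain ⟨x', hx', rfl⟩ := hx
    obtain ⟨y', hy', rfl⟩ := hy
    exact (clo_aut hp φ x' y').2 (h hx' hy' (fun h' => hxy (by rw [h'])))

theorem S1_aut {p : V → Fin d → ℝ} (hp : MG p) {G : SimpleGraph V} (φ : G ≃g G)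
    (A : Finset V) : S1 (clo p G) (A.map φ.toEquiv.toEmbedding) ↔ S1 (clo p G) A := by
  have h : ∀ v, (A.map φ.toEquiv.toEmbedding).erase (φ v) =
      (A.erase v).map φ.toEquiv.toEmbedding := by
    intro v
    rw [map_erase]
    rfl
  constructor
  · rintro ⟨v, hv, hc⟩
    rw [mem_map] at hv
    obtain ⟨v', hv', rfl⟩ := hv
    refine ⟨v', hv', ?_⟩
    rw [← clique_aut hp φ, ← h]
    exact hc
  · rintro ⟨v, hv, hc⟩
    refine ⟨φ v, mem_map_of_mem _ hv, ?_⟩
    rw [h, clique_aut hp φ]
    exact hc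

/-! ### Numbers -/

theorem h1_ge {d : ℕ} {j : ℕ} (hd : 1 ≤ d) (hj : d * (d + 1) ≤ j) : (d : ℝ) ≤ h1 d j := by
  unfold h1
  have hj' : (d : ℝ) * (d + 1) ≤ j := by exact_mod_cast hj
  have hd' : (1 : ℝ) ≤ d := by exact_mod_cast hd
  have h0 : (0 : ℝ) < j := by nlinarith
  have : (d : ℝ) * (d + 1) / 2 / j ≤ 1 / 2 := by
    rw [div_le_div_iff₀ h0 (by norm_num)]
    linarith
  linarith

theorem h2_ge {d : ℕ} {j : ℕ} (hj : 3 * (d * (d + 1)) + 4 ≤ 4 * j) (hj2 : 2 ≤ j) :
    (d : ℝ) ≤ h2 d j := by
  unfold h2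
  have hj' : 3 * ((d : ℝ) * (d + 1)) + 4 ≤ 4 * j := by exact_mod_cast hj
  have hd' : (0 : ℝ) ≤ d := Nat.cast_nonneg d
  have hj2' : (2 : ℝ) ≤ j := by exact_mod_cast hj2
  have h0 : (0 : ℝ) < j := by linarith
  have h3 : (0 : ℝ) < (j : ℝ) - 1 := by linarith
  have key : ((d + 1) * (d + 2) / 2 + ((j : ℝ) - d) * (j - d - 1) * (j - d - 2) / (3 * j * (j - 1))) /
      ((j : ℝ) + 1) ≤ 1 := by
    rw [div_le_one (by linarith)]
    have h4 : ((j : ℝ) - d) * (j - d - 1) * (j - d - 2) / (3 * j * (j - 1)) ≤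
        (j : ℝ) + 1 - (d + 1) * (d + 2) / 2 := by
      rw [div_le_iff₀ (by positivity)]
      have e : ((j : ℝ) + 1 - (d + 1) * (d + 2) / 2) * (3 * j * (j - 1)) -
          ((j : ℝ) - d) * (j - d - 1) * (j - d - 2) =
          2 * (j : ℝ) ^ 2 * (j - 3 / 4 * (d * (d + 1)) - 1) +
          2 * j * (j - 3 / 4 * (d * (d + 1)) - 1) + d * (d + 1) * (d + 2) := by ring
      have h5 : 0 ≤ (j : ℝ) - 3 / 4 * (d * (d + 1)) - 1 := by linarith
      have h6 : 0 ≤ ((j : ℝ) + 1 - (d + 1) * (d + 2) / 2) * (3 * j * (j - 1)) -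
          ((j : ℝ) - d) * (j - d - 1) * (j - d - 2) := by
        rw [e]
        positivity
      linarith
    linarith
  linarith

/-! ### Rigid graphs -/

theorem rigid_of_linked {p : V → Fin d → ℝ} (hp : MG p) {G : SimpleGraph V}
    (h : ∀ u v, u ≠ v → (clo p G).Adj u v) : GenRigid d G := by
  refine ⟨p, ?_⟩
  have h1 := rigid_complete hp.toGen (clo p G) univ (fun u _ v _ huv => h u v huv)
  intro q hq
  obtain ⟨A, b, hA, hb⟩ := h1 q (fun u _ v _ huv => motion_clo.2 hq u v huv)
  exact ⟨A, b, hA, fun v => hb v (by simp)⟩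

theorem complete_of_clique {C G : SimpleGraph V} (hGC : G ≤ C) (hG : G.Connected)
    (h : ∀ v, C.IsClique (nb C univ v : Set V)) : ∀ u v, u ≠ v → C.Adj u v := by
  intro u v
  obtain ⟨w⟩ := hG u v
  induction w with
  | nil => intro h; exact absurd rfl h
  | @cons a b c hab w ih =>
    intro hac
    by_cases hbc : b = c
    · rw [← hbc]
      exact hGC hab
    · have h1 := ih hbc
      exact h b (by rw [mem_coe, mem_nb]; exact ⟨mem_univ _, (hGC hab).symm⟩)
        (by rw [mem_coe, mem_nb]; exact ⟨mem_univ _, h1⟩) hac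

/-- **Main dichotomy.** -/
theorem dichotomy {G : SimpleGraph V} [DecidableRel G.Adj] (hG : G.Connected)
    (htr : ∀ u v, ∃ φ : G ≃g G, φ u = v) {p : V → Fin d → ℝ} (hp : MG p)
    (hk : ∀ v, 3 * (d * (d + 1)) + 4 ≤ 4 * G.degree v) (hr : ¬ GenRigid d G) :
    ∃ b : ℕ, b < d * (d + 1) ∧ d + 1 ≤ b ∧ (∀ v, G.degree v ≤ b) ∧
      ∀ v, (nb (clo p G) univ v).card = b ∧ ¬ (clo p G).IsClique (nb (clo p G) univ v : Set V) ∧
        S1 (clo p G) (nb (clo p G) univ v) := by
  classical
  set C := clo p G with hC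
  have hne : Nonempty V := hG.nonempty
  obtain ⟨v0⟩ := hne
  have hd : 1 ≤ d := by
    by_contra h
    have : d = 0 := by omega
    subst this
    apply hr
    exact ⟨fun _ _ => 0, fun q _ => ⟨0, 0, by simp, fun v => Subsingleton.elim _ _⟩⟩
  set b := (nb C univ v0).card with hb
  have hall : ∀ v, ∃ φ : G ≃g G, nb C univ v = (nb C univ v0).map φ.toEquiv.toEmbedding := by
    intro v
    obtain ⟨φ, hφ⟩ := htr v0 v
    refine ⟨φ, ?_⟩
    rw [← hφ]
    exact nb_aut hp φ v0
  have hcard : ∀ v, (nb C univ v).card = b := by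
    intro v
    obtain ⟨φ, hφ⟩ := hall v
    rw [hφ, card_map]
  have hcl : ∀ v, C.IsClique (nb C univ v : Set V) ↔ C.IsClique (nb C univ v0 : Set V) := by
    intro v
    obtain ⟨φ, hφ⟩ := hall v
    rw [hφ]
    exact clique_aut hp φ _
  have hs1 : ∀ v, S1 C (nb C univ v) ↔ S1 C (nb C univ v0) := by
    intro v
    obtain ⟨φ, hφ⟩ := hall v
    rw [hφ]
    exact S1_aut hp φ _
  have hdeg : ∀ v, G.degree v ≤ b := by
    intro v
    rw [← hcard v, ← SimpleGraph.card_neighborFinset_eq_degree]
    apply card_le_card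
    intro x hx
    rw [SimpleGraph.mem_neighborFinset] at hx
    rw [mem_nb]
    exact ⟨mem_univ _, le_clo p G hx⟩
  have hbk : 3 * (d * (d + 1)) + 4 ≤ 4 * b := by
    have h1 := hk v0
    have h2 := hdeg v0
    omega
  have hbd : d + 1 ≤ b := by nlinarith
  have hb2 : 2 ≤ b := by omega
  have hnb : b + 1 ≤ Fintype.card V := by
    have h1 : v0 ∉ nb C univ v0 := fun h => (mem_nb.1 h).2.ne rfl
    have h2 := card_le_univ (insert v0 (nb C univ v0))
    rw [card_insert_of_notMem h1] at h2
    exact h2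
  have hdn : d ≤ Fintype.card V := by omega
  have hbound := main_bound hp G
  rw [← hC] at hbound
  have hmo : (1 : ℝ) ≤ mo G p := by
    have h1 := Pool.Agent.T2h34.Circ.triv_le_mo G hdn hp
    have h2 : 1 ≤ d * (d + 1) / 2 := by
      rw [Nat.le_div_iff_mul_le (by norm_num)]
      nlinarith
    exact_mod_cast h2.trans h1
  have hncl : ¬ C.IsClique (nb C univ v0 : Set V) := by
    intro h
    apply hr
    exact rigid_of_linked hp (complete_of_clique (le_clo p G) hG fun v => (hcl v).2 h)
  have hcontra : ∀ c : ℝ, (d : ℝ) ≤ c → (∀ v, hh d C (nb C univ v) = c) → False := by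
    intro c hc h
    rw [sum_congr rfl fun v _ => h v, sum_const, nsmul_eq_mul, card_univ] at hbound
    have h3 : (0 : ℝ) ≤ Fintype.card V := Nat.cast_nonneg _
    nlinarith
  have hS1 : S1 C (nb C univ v0) := by
    by_contra hns
    refine hcontra _ (h2_ge hbk hb2) (fun v => ?_)
    rw [hh_not2 (by rw [hcard]; exact hbd) (fun h => hncl ((hcl v).1 h)) (fun h => hns ((hs1 v).1 h)),
      hcard]
  refine ⟨b, ?_, hbd, hdeg, fun v => ⟨hcard v, fun h => hncl ((hcl v).1 h), (hs1 v).2 hS1⟩⟩
  by_contra hge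
  push Not at hge
  refine hcontra _ (h1_ge hd hge) (fun v => ?_)
  unfold hh
  rw [if_neg (by rw [hcard]; omega), if_neg (fun h => hncl ((hcl v).1 h)), if_pos ((hs1 v).2 hS1),
    hcard]

/-! ### The blocks -/

/-- the block structure of the flexible graphs -/
structure Blocks (d : ℕ) (G : SimpleGraph V) (b : ℕ) (r : Setoid V) : Prop where
  /-- all blocks have `b` elements -/
  card : ∀ v, {u | r v u}.ncard = b
  /-- each vertex has exactly one neighbour outside its block -/
  outside : ∀ v, {u | G.Adj v u ∧ ¬ r v u}.ncard = 1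
  /-- the blocks are permuted by the automorphisms -/
  aut : ∀ (φ : G ≃g G) (u v : V), r u v → r (φ u) (φ v)
  /-- any two vertices of a block are linked -/
  linked : ∀ u v, r u v → u ≠ v → genRank d (G ⊔ SimpleGraph.edge u v) = genRank d G

theorem blocks_of {G : SimpleGraph V} (hG : G.Connected)
    (htr : ∀ u v, ∃ φ : G ≃g G, φ u = v) {p : V → Fin d → ℝ} (hp : MG p) {b : ℕ}
    (hb : d + 1 ≤ b)
    (h : ∀ v, (nb (clo p G) univ v).card = b ∧ ¬ (clo p G).IsClique (nb (clo p G) univ v : Set V) ∧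
        S1 (clo p G) (nb (clo p G) univ v)) : ∃ r : Setoid V, Blocks d G b r := by
  classical
  set C := clo p G with hC
  have hx : ∀ v, ∃ x, x ∈ nb C univ v ∧ C.IsClique ((nb C univ v).erase x : Set V) ∧
      ∀ y ∈ nb C univ v, C.IsClique ((nb C univ v).erase y : Set V) → y = x := by
    intro v
    obtain ⟨x, hx, hxc⟩ := (h v).2.2
    refine ⟨x, hx, hxc, fun y hy hyc => ?_⟩
    exact count1 hp G (u := v) (A := nb C univ v) (fun a ha => (mem_nb.1 ha).2)
      (by rw [(h v).1]; exact hb) (h v).2.1 hy hx hyc hxc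
  choose x hx1 hx2 hx3 using hx
  set B : V → Finset V := fun v => insert v ((nb C univ v).erase (x v)) with hB
  have hvB : ∀ v, v ∈ B v := fun v => mem_insert_self _ _
  have hvn : ∀ v, v ∉ nb C univ v := fun v hv => (mem_nb.1 hv).2.ne rfl
  have hBcard : ∀ v, (B v).card = b := by
    intro v
    rw [hB]
    simp only
    rw [card_insert_of_notMem (fun h' => hvn v (mem_of_mem_erase h')), card_erase_of_mem (hx1 v),
      (h v).1]
    omega
  have hBcl : ∀ v, C.IsClique (B v : Set V) := by
    intro v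
    rw [hB]
    simp only
    rw [coe_insert, SimpleGraph.isClique_insert]
    exact ⟨hx2 v, fun y hy _ => (mem_nb.1 (mem_of_mem_erase (mem_coe.1 hy))).2⟩
  have hBeq : ∀ v, ∀ w ∈ B v, B w = B v := by
    intro v w hw
    -- the rest of the block consists of neighbours of `w`
    have h1 : (B v).erase w ⊆ nb C univ w := by
      intro y hy
      rw [mem_erase] at hy
      rw [mem_nb]
      exact ⟨mem_univ _, hBcl v hw hy.2 (Ne.symm hy.1)⟩
    have h2 : ((B v).erase w).card = b - 1 := by rw [card_erase_of_mem hw, hBcard]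
    have h3 : (nb C univ w \ (B v).erase w).card = 1 := by
      rw [card_sdiff_of_subset h1, h2, (h w).1]
      omega
    obtain ⟨y, hy⟩ := card_eq_one.1 h3
    have hy1 : y ∈ nb C univ w := by
      have : y ∈ nb C univ w \ (B v).erase w := by rw [hy]; exact mem_singleton_self _
      exact (mem_sdiff.1 this).1
    have h4 : (nb C univ w).erase y = (B v).erase w := by
      ext z
      rw [mem_erase]
      constructor
      · rintro ⟨hzy, hz⟩
        by_contra hz'
        have : z ∈ nb C univ w \ (B v).erase w := mem_sdiff.2 ⟨hz, hz'⟩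
        rw [hy, mem_singleton] at this
        exact hzy this
      · intro hz
        refine ⟨?_, h1 hz⟩
        rintro rfl
        have : z ∈ nb C univ w \ (B v).erase w := by rw [hy]; exact mem_singleton_self _
        exact (mem_sdiff.1 this).2 hz
    have h5 : y = x w := by
      refine hx3 w y hy1 ?_
      rw [h4]
      exact (hBcl v).subset (coe_subset.2 (erase_subset _ _))
    rw [hB]
    simp only
    rw [← h5, h4, insert_erase hw]
  have hmemiff : ∀ u v, v ∈ B u ↔ B v = B u := by
    intro u v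
    exact ⟨fun h' => hBeq u v h', fun h' => h' ▸ hvB v⟩
  set r : Setoid V := Setoid.comap B ⊥ with hr
  have hrr : ∀ u v, r u v ↔ B u = B v := fun u v => Iff.rfl
  have hr' : ∀ u v, r u v ↔ v ∈ B u := by
    intro u v
    rw [hrr, hmemiff]
    exact eq_comm
  -- invariance
  have hxφ : ∀ (φ : G ≃g G) (v : V), x (φ v) = φ (x v) := by
    intro φ v
    symm
    have hnb := nb_aut hp φ v
    rw [← hC] at hnb
    refine hx3 (φ v) _ ?_ ?_
    · rw [hnb]
      exact mem_map_of_mem _ (hx1 v)
    · rw [hnb]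
      have e : ((nb C univ v).map φ.toEquiv.toEmbedding).erase (φ (x v)) =
          ((nb C univ v).erase (x v)).map φ.toEquiv.toEmbedding := by
        rw [map_erase]; rfl
      rw [e, hC, clique_aut hp φ]
      exact hx2 v
  have hBφ : ∀ (φ : G ≃g G) (v : V), B (φ v) = (B v).map φ.toEquiv.toEmbedding := by
    intro φ v
    rw [hB]
    simp only
    rw [map_insert, map_erase, hxφ]
    have hnb := nb_aut hp φ v
    rw [← hC] at hnb
    rw [hnb]
    rfl
  -- the neighbours outside
  have hxB : ∀ v, x v ∉ B v := by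
    intro v hv
    rw [hB] at hv
    simp only [mem_insert, mem_erase, ne_eq, not_true_eq_false, false_and, or_false] at hv
    have h1 := hx1 v
    rw [hv] at h1
    exact hvn v h1
  have hout : ∀ v u, G.Adj v u → u ∉ B v → u = x v := by
    intro v u huv hu
    by_contra hne
    apply hu
    rw [hB]
    simp only
    rw [mem_insert, mem_erase, mem_nb]
    exact Or.inr ⟨hne, mem_univ _, le_clo p G huv⟩
  have hadj : ∀ v, G.Adj v (x v) := by
    by_contra hcon
    push Not at hcon
    obtain ⟨v, hv⟩ := hcon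
    have hall : ∀ w, ¬ G.Adj w (x w) := by
      intro w hw
      obtain ⟨φ, hφ⟩ := htr w v
      apply hv
      rw [← hφ, hxφ]
      exact φ.map_rel_iff.2 hw
    have hin : ∀ u w, G.Adj u w → B w = B u := by
      intro u w huw
      apply hBeq
      by_contra hw
      exact hall u (hout u w huw hw ▸ huw)
    have hsame : ∀ u w, B w = B u := by
      intro u w
      obtain ⟨path⟩ := hG u w
      induction path with
      | nil => rfl
      | @cons a b' c hab w' ih => rw [ih, hin a b' hab]
    exact hxB v ((hmemiff v (x v)).2 (hsame v (x v)))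
  refine ⟨r, ⟨?_, ?_, ?_, ?_⟩⟩
  · intro v
    have : {u | r v u} = (B v : Set V) := by
      ext u
      rw [Set.mem_ofPred_eq, hr', mem_coe]
    rw [this, Set.ncard_coe_finset, hBcard]
  · intro v
    have : {u | G.Adj v u ∧ ¬ r v u} = {x v} := by
      ext u
      rw [Set.mem_ofPred_eq, Set.mem_singleton_iff, hr']
      constructor
      · rintro ⟨h1, h2⟩
        exact hout v u h1 h2
      · rintro rfl
        exact ⟨hadj v, hxB v⟩
    rw [this, Set.ncard_singleton]
  · intro φ u v huv
    rw [hr'] at *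
    rw [hBφ]
    exact mem_map_of_mem _ huv
  · intro u v huv hne
    rw [hr'] at huv
    have h1 : C.Adj u v := hBcl u (hvB u) huv hne
    have h2 := lk_iff.1 h1.2
    have h3 := genRank_add hp G
    have h4 := genRank_add hp (G ⊔ SimpleGraph.edge u v)
    omega

/-- **Structure of flexible vertex-transitive graphs.** -/
theorem structure_thm {G : SimpleGraph V} [DecidableRel G.Adj] (hG : G.Connected)
    (htr : ∀ u v, ∃ φ : G ≃g G, φ u = v)
    (hk : ∀ v, 3 * (d * (d + 1)) + 4 ≤ 4 * G.degree v) (hr : ¬ GenRigid d G) :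
    ∃ (b : ℕ) (r : Setoid V), b < d * (d + 1) ∧ (∀ v, G.degree v ≤ b) ∧ Blocks d G b r := by
  obtain ⟨p, hp⟩ := exists_mg V d
  obtain ⟨b, h1, h2, h3, h4⟩ := dichotomy hG htr hp hk hr
  obtain ⟨r, hr⟩ := blocks_of hG htr hp h2 h4
  exact ⟨b, r, h1, h3, hr⟩

/-- degree at least `d (d + 1)` -/
theorem rigid_of_degree {G : SimpleGraph V} [DecidableRel G.Adj] (hG : G.Connected)
    (htr : ∀ u v, ∃ φ : G ≃g G, φ u = v) (hk : ∀ v, d * (d + 1) ≤ G.degree v) : GenRigid d G := by
  by_contra hr
  obtain ⟨v0⟩ := hG.nonempty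
  rcases Nat.lt_or_ge d 2 with hd | hd
  · -- `d ≤ 1`
    rcases Nat.lt_or_ge d 1 with hd0 | hd0
    · have : d = 0 := by omega
      subst this
      apply hr
      exact ⟨fun _ _ => 0, fun q _ => ⟨0, 0, by simp, fun v => Subsingleton.elim _ _⟩⟩
    · have : d = 1 := by omega
      subst this
      -- connected graphs are rigid on the line
      obtain ⟨p, hp⟩ := exists_mg V 1
      apply hr
      apply rigid_of_linked hp
      have hcl : ∀ v, (clo p G).IsClique (nb (clo p G) univ v : Set V) := by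
        intro v x hx y hy hxy
        rw [mem_coe, mem_nb] at hx hy
        refine ⟨hxy, fun q hq => ?_⟩
        have h1 := hx.2.2 q hq
        have h2 := hy.2.2 q hq
        rw [dotProduct, Fin.sum_univ_one] at *
        simp only [Pi.sub_apply] at *
        have h3 : ∀ a b : V, a ≠ b → p a 0 - p b 0 ≠ 0 := by
          intro a b hab h0
          have h4 := lin_of_pos hp (v := a) (T := {b}) (by simpa using hab) (by simp)
          rw [Fintype.linearIndependent_iff] at h4
          have h5 := h4 (fun _ => 1) (by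
            rw [Fintype.sum_subsingleton _ (⟨b, by simp⟩ : ({b} : Finset V))]
            rw [one_smul]
            funext i
            rw [Subsingleton.elim i 0]
            exact h0) ⟨b, by simp⟩
          exact one_ne_zero h5
        have h6 : q v 0 - q x 0 = 0 := by
          rcases mul_eq_zero.1 h1 with h | h
          · exact absurd h (h3 v x hx.2.ne)
          · exact h
        have h7 : q v 0 - q y 0 = 0 := by
          rcases mul_eq_zero.1 h2 with h | h
          · exact absurd h (h3 v y hy.2.ne)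
          · exact h
        have h8 : q x 0 - q y 0 = 0 := by linarith
        rw [h8, mul_zero]
      exact complete_of_clique (le_clo p G) hG hcl
  · obtain ⟨b, r, h1, h2, -⟩ := structure_thm hG htr (fun v => by
      have := hk v
      nlinarith) hr
    have := hk v0
    have := h2 v0
    omega

end Pool.Agent.T2h34.VT
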