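import Mathlib
import Pool.Agent.T2h34.VT.Trans
import Pool.Agent.Y530.TN.ResDefs

set_option autoImplicit false
set_option linter.unusedSectionVars false

/-! Partitions of the vertex set into large classes: the necessary condition. -/

namespace Pool.Agent.T2h34.VT

open Finset Matrix Pool.Agent.H283R2.DR Pool.Agent.H789R5 Pool.Agent.Y530.TN

variable {V : Type} [Fintype V] {d : ℕ}

/-- the edges inside the classes -/
def inside (G : SimpleGraph V) (r : Setoid V) : SimpleGraph V where
  Adj u v := G.Adj u v ∧ r u v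
  symm := ⟨fun _ _ h => ⟨h.1.symm, r.symm h.2⟩⟩
  loopless := ⟨fun v h => G.loopless.irrefl v h.1⟩

theorem between_eq (G : SimpleGraph V) (r : Setoid V) :
    (G.edgeSet \ (inside G r).edgeSet).ncard = between G id r := by
  unfold between
  congr 1
  ext e
  induction e with
  | _ a b =>
    simp only [Set.mem_diff, SimpleGraph.mem_edgeSet, inside, Set.mem_ofPred_eq, id]
    constructor
    · rintro ⟨h1, h2⟩
      exact ⟨a, b, h1, fun h => h2 ⟨h1, h⟩, rfl⟩
    · rintro ⟨u, v, h1, h2, h3⟩
      rw [Sym2.eq_iff] at h3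
      rcases h3 with ⟨rfl, rfl⟩ | ⟨rfl, rfl⟩
      · exact ⟨h1, fun h => h2 h.2⟩
      · exact ⟨h1.symm, fun h => h2 (r.symm h.2)⟩

/-- the motions which are trivial on each class -/
noncomputable def blockMap (p : V → Fin d → ℝ) (r : Setoid V) :
    (Quotient r → TA.Sk d × (Fin d → ℝ)) →ₗ[ℝ] (V → Fin d → ℝ) where
  toFun x v := ((x (Quotient.mk r v)).1 : Matrix (Fin d) (Fin d) ℝ) *ᵥ p v + (x (Quotient.mk r v)).2
  map_add' := by
    intro x y
    funext v
    simp only [Pi.add_apply, Prod.fst_add, Prod.snd_add, Submodule.coe_add, add_mulVec]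
    abel
  map_smul' := by
    intro c x
    funext v
    simp only [Pi.smul_apply, Prod.smul_fst, Prod.smul_snd, Submodule.coe_smul, smul_mulVec,
      RingHom.id_apply, smul_add]

theorem blockMap_inj {p : V → Fin d → ℝ} (hp : MG p) (r : Setoid V)
    (hr : ∀ v, d ≤ {u | r v u}.ncard) : Function.Injective (blockMap p r) := by
  classical
  intro x y hxy
  funext c
  induction c using Quotient.inductionOn with
  | h v =>
    have h1 : ∀ u ∈ univ.filter (fun u => r v u),
        ((x (Quotient.mk r v)).1 : Matrix (Fin d) (Fin d) ℝ) *ᵥ p u + (x (Quotient.mk r v)).2 =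
        ((y (Quotient.mk r v)).1 : Matrix (Fin d) (Fin d) ℝ) *ᵥ p u + (y (Quotient.mk r v)).2 := by
      intro u hu
      have h2 := congrFun hxy u
      have h3 : Quotient.mk r u = Quotient.mk r v := Quotient.sound (r.symm (mem_filter.1 hu).2)
      simp only [blockMap, LinearMap.coe_mk, AddHom.coe_mk, h3] at h2
      exact h2
    have h4 := triv_unique hp.toGen (S := univ.filter (fun u => r v u)) (by
      have := hr v
      rw [Set.ncard_eq_toFinset_card'] at this
      simpa using this) (x (Quotient.mk r v)).1.2 (y (Quotient.mk r v)).1.2 h1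
    exact Prod.ext (Subtype.ext h4.1) h4.2

theorem blockMap_mot (p : V → Fin d → ℝ) (G : SimpleGraph V) (r : Setoid V) :
    LinearMap.range (blockMap p r) ≤ Mot (inside G r) p := by
  rintro _ ⟨x, rfl⟩
  rw [mem_mot]
  intro u v huv
  have h3 : Quotient.mk r u = Quotient.mk r v := Quotient.sound huv.2
  simp only [blockMap, LinearMap.coe_mk, AddHom.coe_mk, h3]
  rw [add_sub_add_right_eq_sub, ← Matrix.mulVec_sub]
  exact skew_dot_self (x (Quotient.mk r v)).1.2 _

theorem blocks_mo {p : V → Fin d → ℝ} (hp : MG p) (G : SimpleGraph V) (r : Setoid V)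
    (hr : ∀ v, d ≤ {u | r v u}.ncard) :
    d * (d + 1) / 2 * Nat.card (Quotient r) ≤ mo (inside G r) p := by
  classical
  haveI : Fintype (Quotient r) := Fintype.ofFinite _
  have h1 := Submodule.finrank_mono (blockMap_mot p G r)
  rw [LinearMap.finrank_range_of_inj (blockMap_inj hp r hr), Module.finrank_pi_fintype,
    sum_const, finrank_triv, smul_eq_mul, card_univ, mul_comm, ← Nat.card_eq_fintype_card] at h1
  exact h1

/-- **The necessary condition.** -/
theorem necessary {G : SimpleGraph V} (hG : GenRigid d G) (r : Setoid V)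
    (hr : ∀ v, d ≤ {u | r v u}.ncard) :
    d * (d + 1) / 2 * Nat.card (Quotient r) ≤ between G id r + d * (d + 1) / 2 := by
  classical
  rcases isEmpty_or_nonempty V with hV | ⟨⟨v0⟩⟩
  · have : IsEmpty (Quotient r) := ⟨fun c => Quotient.inductionOn c fun v => hV.false v⟩
    rw [Nat.card_of_isEmpty]
    omega
  · have hdn : d ≤ Fintype.card V := by
      refine (hr v0).trans ?_
      rw [← Nat.card_eq_fintype_card, ← Set.ncard_univ]
      exact Set.ncard_le_ncard (Set.subset_univ _)
    obtain ⟨p, hp⟩ := exists_mg V d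
    have h1 := (genRigid_iff hp hdn G).1 hG
    have h2 := mo_le_add (G := inside G r) (G' := G) p
    rw [between_eq] at h2
    have h3 := blocks_mo hp G r hr
    omega

end Pool.Agent.T2h34.VT
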