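import Mathlib
import Pool.Agent.T2h34.VT.Part

set_option autoImplicit false
set_option linter.unusedSectionVars false

/-! The degree bound `d (d + 1)` is best possible. -/

namespace Pool.Agent.T2h34.VT

open Finset Matrix Pool.Agent.H283R2.DR Pool.Agent.H789R5 Pool.Agent.Y530.TN

/-- the complete bipartite graph `K_{s,s}` with each vertex replaced by a clique -/
def Tr (s : ℕ) : SimpleGraph (Fin s × Fin s × Bool) where
  Adj u v := (u.2.2 = v.2.2 ∧ (if u.2.2 then u.1 = v.1 ∧ u.2.1 ≠ v.2.1 else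
    u.2.1 = v.2.1 ∧ u.1 ≠ v.1)) ∨ (u.2.2 ≠ v.2.2 ∧ u.1 = v.1 ∧ u.2.1 = v.2.1)
  symm := ⟨fun u v h => by
    rcases h with ⟨h1, h2⟩ | ⟨h1, h2, h3⟩
    · left
      refine ⟨h1.symm, ?_⟩
      rw [← h1]
      split_ifs at h2 ⊢ with h
      · exact ⟨h2.1.symm, h2.2.symm⟩
      · exact ⟨h2.1.symm, h2.2.symm⟩
    · exact Or.inr ⟨h1.symm, h2.symm, h3.symm⟩⟩
  loopless := ⟨fun v h => by
    rcases h with ⟨_, h2⟩ | ⟨h1, _⟩
    · split_ifs at h2
      · exact h2.2 rfl
      · exact h2.2 rfl
    · exact h1 rfl⟩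

theorem tr_adj {s : ℕ} {i j i' j' : Fin s} {b b' : Bool} :
    (Tr s).Adj (i, j, b) (i', j', b') ↔ (b = b' ∧ (if b then i = i' ∧ j ≠ j' else
      j = j' ∧ i ≠ i')) ∨ (b ≠ b' ∧ i = i' ∧ j = j') := Iff.rfl

instance (s : ℕ) : DecidableRel (Tr s).Adj := fun u v => by
  unfold Tr
  dsimp only
  infer_instance

/-- permuting the coordinates -/
def trPerm {s : ℕ} (σ τ : Equiv.Perm (Fin s)) : Tr s ≃g Tr s where
  toFun v := (σ v.1, τ v.2.1, v.2.2)
  invFun v := (σ.symm v.1, τ.symm v.2.1, v.2.2)
  left_inv v := by simp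
  right_inv v := by simp
  map_rel_iff' := by
    rintro ⟨i, j, b⟩ ⟨i', j', b'⟩
    show (Tr s).Adj (σ i, τ j, b) (σ i', τ j', b') ↔ (Tr s).Adj (i, j, b) (i', j', b')
    rw [tr_adj, tr_adj]
    simp

/-- exchanging the sides -/
def trSwap (s : ℕ) : Tr s ≃g Tr s where
  toFun v := (v.2.1, v.1, !v.2.2)
  invFun v := (v.2.1, v.1, !v.2.2)
  left_inv v := by simp
  right_inv v := by simp
  map_rel_iff' := by
    rintro ⟨i, j, b⟩ ⟨i', j', b'⟩
    show (Tr s).Adj (j, i, !b) (j', i', !b') ↔ (Tr s).Adj (i, j, b) (i', j', b')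
    rw [tr_adj, tr_adj]
    cases b <;> cases b' <;> simp [and_comm]

theorem tr_trans (s : ℕ) (u v : Fin s × Fin s × Bool) : ∃ φ : Tr s ≃g Tr s, φ u = v := by
  obtain ⟨i, j, b⟩ := u
  obtain ⟨i', j', b'⟩ := v
  by_cases hb : b = b'
  · subst hb
    refine ⟨trPerm (Equiv.swap i i') (Equiv.swap j j'), ?_⟩
    show (Equiv.swap i i' i, Equiv.swap j j' j, b) = _
    simp
  · have hb' : (!b) = b' := by
      cases b <;> cases b' <;> simp_all
    refine ⟨(trSwap s).trans (trPerm (Equiv.swap j i') (Equiv.swap i j')), ?_⟩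
    show (Equiv.swap j i' j, Equiv.swap i j' i, !b) = _
    simp [hb']

theorem tr_reach {s : ℕ} (i j i' j' : Fin s) (b : Bool) :
    (Tr s).Reachable (i, j, b) (i', j', b) := by
  have hA : ∀ (i j j' : Fin s), (Tr s).Reachable (i, j, true) (i, j', true) := by
    intro i j j'
    by_cases h : j = j'
    · subst h; exact SimpleGraph.Reachable.refl _
    · exact SimpleGraph.Adj.reachable (tr_adj.2 (Or.inl ⟨rfl, by simp [h]⟩))
  have hB : ∀ (i i' j : Fin s), (Tr s).Reachable (i, j, false) (i', j, false) := by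
    intro i i' j
    by_cases h : i = i'
    · subst h; exact SimpleGraph.Reachable.refl _
    · exact SimpleGraph.Adj.reachable (tr_adj.2 (Or.inl ⟨rfl, by simp [h]⟩))
  have hC : ∀ (i j : Fin s), (Tr s).Reachable (i, j, true) (i, j, false) := by
    intro i j
    exact SimpleGraph.Adj.reachable (tr_adj.2 (Or.inr ⟨by simp, rfl, rfl⟩))
  have hT : (Tr s).Reachable (i, j, true) (i', j', true) :=
    (hC i j).trans ((hB i i' j).trans ((hC i' j).symm.trans (hA i' j j')))
  cases b
  · exact (hC i j).symm.trans (hT.trans (hC i' j'))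
  · exact hT

theorem tr_connected {s : ℕ} (hs : 1 ≤ s) : (Tr s).Connected := by
  have : Nonempty (Fin s × Fin s × Bool) := ⟨(⟨0, hs⟩, ⟨0, hs⟩, true)⟩
  refine ⟨?_⟩
  rintro ⟨i, j, b⟩ ⟨i', j', b'⟩
  by_cases hb : b = b'
  · subst hb
    exact tr_reach i j i' j' b
  · refine SimpleGraph.Reachable.trans (SimpleGraph.Adj.reachable
      (v := (i, j, b')) (tr_adj.2 (Or.inr ⟨hb, rfl, rfl⟩))) (tr_reach i j i' j' b')

theorem tr_degree {s : ℕ} (hs : 1 ≤ s) (v : Fin s × Fin s × Bool) : (Tr s).degree v = s := by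
  classical
  obtain ⟨i, j, b⟩ := v
  rw [← SimpleGraph.card_neighborFinset_eq_degree]
  cases b
  · have h1 : (Tr s).neighborFinset (i, j, false) =
        insert (i, j, true) ((univ.erase i).image fun i' => (i', j, false)) := by
      ext ⟨i', j', b'⟩
      rw [SimpleGraph.mem_neighborFinset, tr_adj]
      cases b' <;> simp [Prod.ext_iff, eq_comm]
      tauto
    rw [h1, card_insert_of_notMem (by simp), card_image_of_injective, card_erase_of_mem (mem_univ _),
      card_univ, Fintype.card_fin]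
    · omega
    · intro a a' haa'
      simpa using haa'
  · have h1 : (Tr s).neighborFinset (i, j, true) =
        insert (i, j, false) ((univ.erase j).image fun j' => (i, j', true)) := by
      ext ⟨i', j', b'⟩
      rw [SimpleGraph.mem_neighborFinset, tr_adj]
      cases b' <;> simp [Prod.ext_iff, eq_comm]
      tauto
    rw [h1, card_insert_of_notMem (by simp), card_image_of_injective, card_erase_of_mem (mem_univ _),
      card_univ, Fintype.card_fin]
    · omega
    · intro a a' haa'
      simpa using haa'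

/-- the cliques -/
def trBlock {s : ℕ} (v : Fin s × Fin s × Bool) : Fin s × Bool :=
  (if v.2.2 then v.1 else v.2.1, v.2.2)

theorem tr_between {s : ℕ} :
    between (Tr s) id (Setoid.ker (trBlock (s := s))) ≤ s * s := by
  classical
  unfold between
  have h1 : {e : Sym2 (Fin s × Fin s × Bool) | ∃ u v, (Tr s).Adj u v ∧
      ¬ (Setoid.ker (trBlock (s := s))) (id u) (id v) ∧ e = s(u, v)} ⊆
      ((univ : Finset (Fin s × Fin s)).image fun x =>
        (s((x.1, x.2, true), (x.1, x.2, false)) : Sym2 (Fin s × Fin s × Bool)) : Finset _) := by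
    rintro e ⟨⟨i, j, b⟩, ⟨i', j', b'⟩, h1, h2, rfl⟩
    rw [mem_coe, mem_image]
    rw [tr_adj] at h1
    rcases h1 with ⟨rfl, h3⟩ | ⟨h3, rfl, rfl⟩
    · exfalso
      apply h2
      rw [Setoid.ker_def]
      cases b
      · simp only [trBlock, id, Bool.false_eq_true, if_false] at h3 ⊢
        rw [h3.1]
      · simp only [trBlock, id, if_true] at h3 ⊢
        rw [h3.1]
    · refine ⟨(i, j), mem_univ _, ?_⟩
      cases b <;> cases b'
      · exact absurd rfl h3
      · exact Sym2.eq_swap
      · rfl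
      · exact absurd rfl h3
  refine (Set.ncard_le_ncard h1).trans ?_
  rw [Set.ncard_coe_finset]
  refine card_image_le.trans ?_
  simp

theorem tr_quot {s : ℕ} :
    2 * s ≤ Nat.card (Quotient (Setoid.ker (trBlock (s := s)))) := by
  have h1 : Function.Surjective (trBlock (s := s)) := by
    rintro ⟨i, b⟩
    refine ⟨(i, i, b), ?_⟩
    simp [trBlock]
  rw [Nat.card_congr (Setoid.quotientKerEquivOfSurjective _ h1), Nat.card_prod,
    Nat.card_eq_fintype_card, Nat.card_eq_fintype_card, Fintype.card_fin, Fintype.card_bool]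
  omega

theorem tr_class {s : ℕ} (v : Fin s × Fin s × Bool) :
    s ≤ {u | (Setoid.ker (trBlock (s := s))) v u}.ncard := by
  classical
  obtain ⟨i, j, b⟩ := v
  cases b
  · have h1 : ((univ.image fun i' : Fin s => (i', j, false) : Finset (Fin s × Fin s × Bool)) :
        Set (Fin s × Fin s × Bool)) ⊆ {u | (Setoid.ker (trBlock (s := s))) (i, j, false) u} := by
      intro u hu
      rw [mem_coe, mem_image] at hu
      obtain ⟨i', -, rfl⟩ := hu
      show trBlock _ = trBlock _
      simp [trBlock]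
    refine le_trans (le_of_eq ?_) (Set.ncard_le_ncard h1)
    rw [Set.ncard_coe_finset, card_image_of_injective, card_univ, Fintype.card_fin]
    intro a a' haa'
    simpa using haa'
  · have h1 : ((univ.image fun j' : Fin s => (i, j', true) : Finset (Fin s × Fin s × Bool)) :
        Set (Fin s × Fin s × Bool)) ⊆ {u | (Setoid.ker (trBlock (s := s))) (i, j, true) u} := by
      intro u hu
      rw [mem_coe, mem_image] at hu
      obtain ⟨i', -, rfl⟩ := hu
      show trBlock _ = trBlock _
      simp [trBlock]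
    refine le_trans (le_of_eq ?_) (Set.ncard_le_ncard h1)
    rw [Set.ncard_coe_finset, card_image_of_injective, card_univ, Fintype.card_fin]
    intro a a' haa'
    simpa using haa'

/-- **Sharpness.** -/
theorem sharp {d : ℕ} (hd : 2 ≤ d) : ¬ GenRigid d (Tr (d * (d + 1) - 1)) := by
  set s := d * (d + 1) - 1 with hs
  have h6 : 6 ≤ d * (d + 1) := by nlinarith
  have hs1 : 1 ≤ s := by omega
  obtain ⟨D, hD⟩ : ∃ D, d * (d + 1) = 2 * D := by
    obtain ⟨D, hD⟩ := Nat.even_mul_succ_self d
    exact ⟨D, by omega⟩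
  have hDs : s = 2 * D - 1 := by omega
  have hds : d ≤ s := by
    have : d * 3 ≤ d * (d + 1) := Nat.mul_le_mul_left _ (by omega)
    omega
  intro h
  have h1 := necessary h (Setoid.ker (trBlock (s := s))) (fun v => hds.trans (tr_class v))
  have h2 := tr_between (s := s)
  have h3 := tr_quot (s := s)
  have h4 : d * (d + 1) / 2 = D := by omega
  rw [h4] at h1
  have h5 : D * (2 * s) ≤ s * s + D := (Nat.mul_le_mul_left D h3).trans (by omega)
  obtain ⟨e, he⟩ : ∃ e, D = e + 3 := ⟨D - 3, by omega⟩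
  have h7 : s = 2 * e + 5 := by omega
  rw [h7, he] at h5
  nlinarith

end Pool.Agent.T2h34.VT
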