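import Mathlib
import Pool.Agent.T2h34.VT.Part
import Pool.Agent.Y530.TN.Gen

set_option autoImplicit false
set_option linter.unusedSectionVars false

/-! Vertex-transitive graphs of degree at least ten in space. -/

namespace Pool.Agent.T2h34.VT

open Finset Matrix Pool.Agent.H283R2.DR Pool.Agent.H789R5 Pool.Agent.Y530.TN

variable {V : Type} [Fintype V] [DecidableEq V]

theorem genRigid_induce_of_complete {d : ℕ} (G : SimpleGraph V) (U : Set V)
    (hU : ∀ u ∈ U, ∀ v ∈ U, u ≠ v → G.Adj u v) : GenRigid d (G.induce U) := by
  classical
  obtain ⟨p, hp⟩ := exists_mg V d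
  have h1 := rigid_complete hp.toGen G (univ.filter fun v => v ∈ U) (by
    intro u hu v hv huv
    exact hU u (mem_filter.1 hu).2 v (mem_filter.1 hv).2 huv)
  have h2 : ((univ.filter fun v => v ∈ U : Finset V) : Set V) = U := by
    ext v; simp
  rw [h2, rigidOn_iff_induce] at h1
  exact ⟨_, h1⟩

theorem connected_of_cond {G : SimpleGraph V} [DecidableRel G.Adj] (hV : Nonempty V)
    (hk : ∀ v, 3 ≤ G.degree v)
    (h : ∀ r : Setoid V, (∀ v, 3 ≤ {u | r v u}.ncard) →
      6 * Nat.card (Quotient r) ≤ between G id r + 6) : G.Connected := by
  classical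
  have h1 := h G.reachableSetoid (fun v => by
    refine (hk v).trans ?_
    rw [← SimpleGraph.card_neighborFinset_eq_degree, ← Set.ncard_coe_finset]
    refine Set.ncard_le_ncard ?_
    intro u hu
    rw [mem_coe, SimpleGraph.mem_neighborFinset] at hu
    exact hu.reachable)
  have h2 : between G id G.reachableSetoid = 0 := by
    unfold between
    rw [Set.ncard_eq_zero]
    ext e
    simp only [Set.mem_empty_iff_false, iff_false]
    rintro ⟨u, v, h1, h2, -⟩
    exact h2 h1.reachable
  rw [h2] at h1
  have h3 : Nat.card (Quotient G.reachableSetoid) ≤ 1 := by omega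
  rw [Finite.card_le_one_iff_subsingleton] at h3
  have := hV
  refine ⟨fun u v => ?_⟩
  exact Quotient.exact (s := G.reachableSetoid) (Subsingleton.elim _ _)

theorem three_iff {G : SimpleGraph V} [DecidableRel G.Adj]
    (htr : ∀ u v, ∃ φ : G ≃g G, φ u = v) (hk : ∀ v, 10 ≤ G.degree v) :
    GenRigid 3 G ↔ ∀ r : Setoid V, (∀ v, 3 ≤ {u | r v u}.ncard) →
      6 * Nat.card (Quotient r) ≤ between G id r + 6 := by
  classical
  constructor
  · intro h r hr
    exact necessary h r hr
  intro h
  rcases isEmpty_or_nonempty V with hV | hV
  · exact ⟨fun _ => 0, fun q _ => ⟨0, 0, by simp, fun v => hV.elim v⟩⟩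
  have hconn := connected_of_cond hV (fun v => le_trans (by norm_num) (hk v)) h
  by_contra hnr
  obtain ⟨b, r, hb12, hdb, hB⟩ := structure_thm (d := 3) hconn htr (fun v => by
    have := hk v; omega) hnr
  obtain ⟨v0⟩ := hV
  have hdeg : ∀ v, G.degree v = G.degree v0 := by
    intro v
    obtain ⟨φ, hφ⟩ := htr v0 v
    rw [← hφ]
    exact φ.degree_eq v0
  -- the neighbours inside
  have hin : ∀ v, (univ.filter fun u => G.Adj v u ∧ r v u).card + 1 = G.degree v := by
    intro v
    have h1 := hB.outside v
    rw [Set.ncard_eq_toFinset_card', Set.toFinset_ofPred] at h1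
    rw [← SimpleGraph.card_neighborFinset_eq_degree,
      ← card_filter_add_card_filter_not (s := G.neighborFinset v) (fun u => r v u)]
    congr 1
    · congr 1
      ext u
      simp
    · rw [← h1]
      congr 1
      ext u
      simp
  have hcard : ∀ v, (univ.filter fun u => r v u).card = b := by
    intro v
    have h1 := hB.card v
    rw [Set.ncard_eq_toFinset_card', Set.toFinset_ofPred] at h1
    exact h1
  have hk0 := hk v0
  have hb0 := hdb v0
  rcases Nat.lt_or_ge (G.degree v0) b with hlt | hge
  · -- parity
    have h10 : G.degree v0 = 10 := by omega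
    have h11 : b = 11 := by omega
    let I : SimpleGraph V :=
      { Adj := fun u v => G.Adj u v ∧ r u v ∧ r v0 u
        symm := ⟨fun u v h => ⟨h.1.symm, r.symm h.2.1, r.trans h.2.2 h.2.1⟩⟩
        loopless := ⟨fun v h => G.loopless.irrefl v h.1⟩ }
    have h1 := I.sum_degrees_eq_twice_card_edges
    have h2 : ∀ v, I.degree v = if r v0 v then 9 else 0 := by
      intro v
      rw [← SimpleGraph.card_neighborFinset_eq_degree]
      by_cases hv : r v0 v
      · rw [if_pos hv]
        have h3 := hin v
        rw [hdeg, h10] at h3
        have h4 : I.neighborFinset v = univ.filter fun u => G.Adj v u ∧ r v u := by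
          ext u
          rw [SimpleGraph.mem_neighborFinset, mem_filter]
          show (G.Adj v u ∧ r v u ∧ r v0 v) ↔ _
          simp [hv]
        rw [h4]
        omega
      · rw [if_neg hv, card_eq_zero]
        ext u
        rw [SimpleGraph.mem_neighborFinset]
        show (G.Adj v u ∧ r v u ∧ r v0 v) ↔ _
        simp [hv]
    rw [sum_congr rfl fun v _ => h2 v, ← sum_filter, sum_const, hcard, h11, smul_eq_mul] at h1
    omega
  · have hbk : b = G.degree v0 := le_antisymm hge hb0
    -- the blocks are cliques
    have hcl : ∀ u v, r u v → u ≠ v → G.Adj u v := by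
      intro u v huv hne
      have h1 : (univ.filter fun w => G.Adj u w ∧ r u w) = (univ.filter fun w => r u w).erase u := by
        apply eq_of_subset_of_card_le
        · intro w hw
          rw [mem_filter] at hw
          rw [mem_erase, mem_filter]
          exact ⟨hw.2.1.ne', mem_univ _, hw.2.2⟩
        · rw [card_erase_of_mem (by rw [mem_filter]; exact ⟨mem_univ _, r.refl u⟩), hcard, hbk]
          have := hin u
          rw [hdeg] at this
          omega
      have h2 : v ∈ (univ.filter fun w => r u w).erase u := by
        rw [mem_erase, mem_filter]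
        exact ⟨hne.symm, mem_univ _, huv⟩
      rw [← h1, mem_filter] at h2
      exact h2.2.1
    have : Fintype (Quotient r) := Fintype.ofFinite _
    set β : V → Quotient r := Quotient.mk r with hβ
    have hβr : ∀ u v, β u = β v ↔ r u v := fun u v => Quotient.eq
    have hS := gen 3 le_rfl V (Quotient r) G β (fun _ => 0) ∅ (by
      intro c
      apply genRigid_induce_of_complete
      intro u hu v hv huv
      rw [Set.mem_ofPred_eq] at hu hv
      exact hcl u v ((hβr u v).1 (hu.trans hv.symm)) huv) (by simp) (by simp) (by
      intro v
      right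
      refine ⟨by simp, ?_⟩
      have h1 := hB.outside v
      have h2 : {w | G.Adj v w ∧ β w ≠ β v} = {u | G.Adj v u ∧ ¬ r v u} := by
        ext w
        simp only [Set.mem_ofPred_eq, ne_eq, hβr]
        constructor
        · rintro ⟨h3, h4⟩
          exact ⟨h3, fun h5 => h4 (r.symm h5)⟩
        · rintro ⟨h3, h4⟩
          exact ⟨h3, fun h5 => h4 (r.symm h5)⟩
      rw [h2, h1]
      norm_num)
    apply hnr
    refine (hS.2 ?_).2 ?_
    · intro c
      induction c using Quotient.inductionOn with
      | h v =>
        have h1 := hB.card v
        have h2 : {u | β u = Quotient.mk r v} = {u | r v u} := by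
          ext u
          simp only [Set.mem_ofPred_eq]
          rw [← hβ, hβr]
          exact ⟨fun h => r.symm h, fun h => r.symm h⟩
        rw [h2, h1]
        omega
    · intro r'
      have h1 := h (r'.comap β) (by
        intro v
        have h1 := hB.card v
        refine le_trans (b := b) (by omega) ?_
        rw [← h1]
        refine Set.ncard_le_ncard ?_ (Set.toFinite _)
        intro u hu
        show r' (β v) (β u)
        rw [(hβr v u).2 hu])
      have h2 : between G id (r'.comap β) = between G β r' := rfl
      rw [h2] at h1
      refine le_trans ?_ h1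
      refine Nat.mul_le_mul_left _ ?_
      refine Nat.card_le_card_of_surjective (Quotient.map' (s₁ := r'.comap β) (s₂ := r') β
        (fun _ _ h => h)) ?_
      intro c
      induction c using Quotient.inductionOn with
      | h c' =>
        induction c' using Quotient.inductionOn with
        | h v => exact ⟨Quotient.mk _ v, rfl⟩

end Pool.Agent.T2h34.VT
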